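import Pool.Agent.TH88.SI.Class

/-!
# MP_39f9da_an: strongly irreducible SFTs over free products

Let `𝒟` be the class of groups over which periodic configurations are dense in every strongly
irreducible subshift of finite type.  We prove that `𝒟` contains all virtually free groups and all
virtually `ℤ²` groups and is closed under free products of arbitrary families, subgroups, finite
index overgroups, and passage to groups whose finite subsets lie in retracts from the class.

The proof for free products: the patterns of the subshift on a window give labels, and a label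
configuration is a configuration whose restriction to every coset of a free factor lies in a
strongly irreducible SFT over this factor.  Periodic points of the factor systems give finite
quotients of the factors, over which the free product system is still strongly irreducible with the
same constants, and over a free product of finite groups the belief propagation recursion has
(Brouwer) fixed points, which give integral couplings and so finite models.
-/

namespace Pool.Agent.Results.MP_39f9da_an.FreeProducts

open Pool.Agent.TH88.SI

/-- `X` is a subshift of finite type for the shift `(g x)(h) = x (g⁻¹ h)`. -/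
def IsSFT {G A : Type} [Group G] (X : Set (G → A)) : Prop :=
  ∃ (D : Finset G) (P : Set (D → A)), X = {x | ∀ g : G, (fun d : D => x (g * d.1)) ∈ P}

/-- `X` is strongly irreducible. -/
def StronglyIrreducible {G A : Type} [Group G] (X : Set (G → A)) : Prop :=
  ∃ Δ : Finset G, ∀ Ω₁ Ω₂ : Finset G, (∀ w ∈ Ω₁, ∀ d ∈ Δ, w * d ∉ Ω₂) →
    ∀ x₁ ∈ X, ∀ x₂ ∈ X, ∃ z ∈ X, (∀ w ∈ Ω₁, z w = x₁ w) ∧ (∀ w ∈ Ω₂, z w = x₂ w)

/-- `x` has a finite orbit under the shift. -/
def Periodic {G A : Type} [Group G] (x : G → A) : Prop :=
  (Set.range (fun g : G => fun h : G => x (g⁻¹ * h))).Finite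

/-- the class `𝒟`: periodic configurations are dense in every strongly irreducible SFT. -/
def DensePeriodic (G : Type) [Group G] : Prop :=
  ∀ (A : Type) [Finite A] (X : Set (G → A)), IsSFT X → StronglyIrreducible X →
    ∀ x ∈ X, ∀ F : Finset G, ∃ y ∈ X, Periodic y ∧ ∀ h ∈ F, y h = x h

/-- `K` has a free subgroup of finite index. -/
def VirtuallyFree (K : Type) [Group K] : Prop :=
  ∃ H : Subgroup K, H.FiniteIndex ∧ IsFreeGroup H

/-- `K` has a finite index subgroup isomorphic to a subgroup of `ℤ²`. -/
def VirtuallyInZ2 (K : Type) [Group K] : Prop :=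
  ∃ (L : Subgroup K) (f : L →* Multiplicative (ℤ × ℤ)), L.FiniteIndex ∧ Function.Injective f

/-- `K` has a finite index subgroup that embeds in a free product of groups each of which is
virtually free, virtually in `ℤ²`, or in `𝒟`. -/
def VirtuallyInFreeProduct (K : Type) [Group K] : Prop :=
  ∃ (H : Subgroup K) (ι : Type) (L : ι → Type) (_ : ∀ i, Group (L i))
    (φ : H →* Monoid.CoprodI L), H.FiniteIndex ∧ Function.Injective φ ∧
      ∀ i, VirtuallyFree (L i) ∨ VirtuallyInZ2 (L i) ∨ DensePeriodic (L i)

theorem result (G : Type) [Group G]
    (hG : ∀ C : Finset G, ∃ K : Subgroup G, (∀ c ∈ C, c ∈ K) ∧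
      (∃ π : G →* K, ∀ k : K, π (k : G) = k) ∧ VirtuallyInFreeProduct K) :
    DensePeriodic G := by
  intro A _ X hX hSI
  refine dense_left (DP_retract fun C hC => ?_) A X hX hSI
  obtain ⟨K, hCK, ⟨π, hπ⟩, ⟨H, ι, L, _, φ, hH, hφ, hL⟩⟩ := hG hC.toFinset
  refine ⟨K, inferInstance, K.subtype, π, hπ, ?_, DP_virt hH (fun i => ?_) φ hφ⟩
  · intro c hc
    exact ⟨⟨c, hCK c (hC.mem_toFinset.2 hc)⟩, rfl⟩
  · rcases hL i with h | h | h
    · exact DP_vfree h
    · exact DP_vZ2 h
    · exact DP_of_left h

end Pool.Agent.Results.MP_39f9da_an.FreeProducts
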